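import Pool.Agent.W367.KT.Final
set_option autoImplicit false

/-!
For every number field `K` with a unit `ε` of infinite order and every genus `g ≥ 1`, the curves
`y + 1/y = ∏_{j=1}^{g+1} (1 - x/ε^{jN})` (`N` large) of genus `g` over `K` have at least `g + 1`
classes in the integral part of their `K_2 ⊗ ℚ` whose regulators are linearly independent over
the real numbers.
-/

namespace Pool.Agent.Results.MP_a09a03_nt.UnitsKTwo

open Pool.Agent.W367.KT NumberField

theorem result (K : Type) [Field K] [NumberField K] (ε : (𝓞 K)ˣ) (hε : ¬ IsOfFinOrder ε)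
    (g : ℕ) (hg : 1 ≤ g) :
    ∀ᶠ N : ℕ in Filter.atTop,
      Squarefree (fpoly (au (toK ε) N) (g + 1) ^ 2 - 4) ∧
      (fpoly (au (toK ε) N) (g + 1) ^ 2 - 4).natDegree = 2 * g + 2 ∧
      IndepClasses (FF (au (toK ε) N) (g + 1)) (g + 1) := by
  filter_upwards [main ε hε (g + 1) (by omega)] with N hN
  obtain ⟨h1, h2, γ, h3⟩ := hN
  refine ⟨h1, ?_, indepClasses_of_det γ (fun k : Fin (g + 1) => cls (g + 1) (toK ε) N k)
    (fun k => h2 k k.isLt.le) h3⟩
  rw [natDegree_sq_sub]; ring

end Pool.Agent.Results.MP_a09a03_nt.UnitsKTwo
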